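import Pool.Agent.RHO.Stmts4

/-!
# Rows PTZ, AFZ (MP_ca8ef3_an, stage 3)
-/

set_option autoImplicit false

namespace Pool.Agent.RHO.H97d

open Finset

section

variable {P : Type} [DecidableEq P] {D : ℕ} (s : Fin D → Equiv.Perm P)

omit [DecidableEq P] in
theorem lb_ot (v : P ⊕ P) (i : Fin D) : lb s (ot s v i) i = lb s v i := by
  rcases v with p | l
  · simp [ot, lb]
  · simp [ot, lb]

theorem inc_lb (v : P ⊕ P) (i : Fin D) (x : P ⊕ P) :
    ((if ea (lb s v i) = x then 1 else 0) + (if eb s (lb s v i) = x then 1 else 0) : ZMod 2) =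
      (if v = x then 1 else 0) + (if ot s v i = x then 1 else 0) := by
  rcases v with p | l
  · rfl
  · have h1 : eb s (lb s (Sum.inr l) i) = Sum.inr l := by simp [eb, lb]
    rw [h1]
    exact add_comm _ _

theorem exists_lb {Z : Finset (P × Fin D)} {v : P ⊕ P} (h : bdr ea (eb s) Z v ≠ 0) :
    ∃ i, lb s v i ∈ Z := by
  obtain ⟨e, he, hne⟩ := Finset.exists_ne_zero_of_sum_ne_zero h
  refine ⟨e.2, ?_⟩
  by_cases h1 : ea e = v
  · have h2 : lb s v e.2 = e := by
      rw [← h1]
      rfl
    rw [h2]
    exact he
  · by_cases h3 : eb s e = v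
    · have h2 : lb s v e.2 = e := by
        rw [← h3]
        simp [eb, lb]
      rw [h2]
      exact he
    · rw [if_neg h1, if_neg h3, add_zero] at hne
      exact absurd rfl hne

theorem bdr_erase {Z : Finset (P × Fin D)} {e : P × Fin D} (he : e ∈ Z) (x : P ⊕ P) :
    bdr ea (eb s) Z x = ((if ea e = x then 1 else 0) + (if eb s e = x then 1 else 0)) +
      bdr ea (eb s) (Z.erase e) x := by
  unfold bdr
  exact (Finset.add_sum_erase Z _ he).symm

omit [DecidableEq P] in
theorem first_end (v : P ⊕ P) (i : Fin D) (L : List (Fin D)) :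
    ∃ j ≤ L.length + 1, ((i :: L).take j).foldl (ot s) v = Sum.inl (lb s v i).1 := by
  rcases v with p | l
  · exact ⟨0, Nat.zero_le _, rfl⟩
  · exact ⟨1, by omega, rfl⟩

theorem claim {T : ℕ}
    (hT : ∀ Z : Finset (P × Fin D), Z.card ≤ T → (∀ v, bdr ea (eb s) Z v = 0) → Z = ∅) :
    ∀ (n : ℕ) (Z : Finset (P × Fin D)) (v w : P ⊕ P), Z.card = n → n ≤ T → v ≠ w →
      (∀ x, bdr ea (eb s) Z x = (if x = v then 1 else 0) + (if x = w then 1 else 0)) →
      ∃ (i : Fin D) (L : List (Fin D)), (i :: L).IsChain (· ≠ ·) ∧ L.length + 1 ≤ n ∧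
        lb s v i ∈ Z ∧ ∀ e ∈ Z, ∃ j ≤ L.length + 1,
          ((i :: L).take j).foldl (ot s) v = Sum.inl e.1 := by
  have h2 : ∀ a : ZMod 2, a + a = 0 := fun a => CharTwo.add_self_eq_zero a
  intro n
  induction n with
  | zero =>
    intro Z v w hZ _ hvw hb
    rw [Finset.card_eq_zero] at hZ
    have h1 := hb v
    rw [hZ] at h1
    simp [bdr, hvw] at h1
  | succ n ih =>
    intro Z v w hZ hn hvw hb
    have hv : bdr ea (eb s) Z v ≠ 0 := by
      rw [hb v, if_pos rfl, if_neg hvw, add_zero]
      exact one_ne_zero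
    obtain ⟨i, hi⟩ := exists_lb s hv
    have hcard : (Z.erase (lb s v i)).card = n := by
      rw [Finset.card_erase_of_mem hi, hZ]
      rfl
    have hb' : ∀ x, bdr ea (eb s) (Z.erase (lb s v i)) x =
        (if x = ot s v i then 1 else 0) + (if x = w then 1 else 0) := by
      intro x
      have h3 := bdr_erase s hi x
      rw [hb x, inc_lb] at h3
      have e1 : (if v = x then (1 : ZMod 2) else 0) = if x = v then 1 else 0 := by
        simp only [eq_comm]
      have e2 : (if ot s v i = x then (1 : ZMod 2) else 0) = if x = ot s v i then 1 else 0 := by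
        simp only [eq_comm]
      rw [e1, e2] at h3
      generalize (if x = v then (1 : ZMod 2) else 0) = A at h3 ⊢
      generalize (if x = w then (1 : ZMod 2) else 0) = B at h3 ⊢
      generalize (if x = ot s v i then (1 : ZMod 2) else 0) = C at h3 ⊢
      have h4 : B = C + bdr ea (eb s) (Z.erase (lb s v i)) x := by
        have := add_left_cancel (a := A) (by rw [h3]; ring :
          A + B = A + (C + bdr ea (eb s) (Z.erase (lb s v i)) x))
        exact this
      rw [h4, ← add_assoc, h2 C, zero_add]
    by_cases hw : ot s v i = w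
    · have h0 : Z.erase (lb s v i) = ∅ := by
        refine hT _ (by omega) (fun x => ?_)
        rw [hb' x, hw]
        exact h2 _
      refine ⟨i, [], by simp, by simp, hi, ?_⟩
      intro e he
      have hee : e = lb s v i := by
        by_contra hne
        have : e ∈ Z.erase (lb s v i) := Finset.mem_erase.2 ⟨hne, he⟩
        rw [h0] at this
        exact absurd this (Finset.notMem_empty e)
      rw [hee]
      exact first_end s v i []
    · obtain ⟨i', L', hc, hl, hm, hall⟩ := ih (Z.erase (lb s v i)) (ot s v i) w hcard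
        (by omega) hw hb'
      have hne : i ≠ i' := by
        rintro rfl
        rw [lb_ot] at hm
        exact (Finset.notMem_erase _ _) hm
      refine ⟨i, i' :: L', ?_, ?_, hi, ?_⟩
      · rw [List.isChain_cons_cons]
        exact ⟨hne, hc⟩
      · rw [List.length_cons]
        omega
      · intro e he
        by_cases hee : e = lb s v i
        · rw [hee]
          exact first_end s v i (i' :: L')
        · obtain ⟨j, hj, hje⟩ := hall e (Finset.mem_erase.2 ⟨hee, he⟩)
          refine ⟨j + 1, by rw [List.length_cons]; omega, ?_⟩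
          rw [List.take_succ_cons, List.foldl_cons]
          exact hje

end

theorem ptz : PTZStmt := by
  intro P _ D T s hT Z v w hZ hb
  by_cases hvw : v = w
  · left
    refine hT Z hZ (fun x => ?_)
    rw [hb x, hvw]
    exact CharTwo.add_self_eq_zero _
  · right
    obtain ⟨i, L, hc, hl, _, hall⟩ := claim s hT Z.card Z v w rfl hZ hvw hb
    rcases v with p | l
    · exact ⟨p, i :: L, hc, hl, hall⟩
    · refine ⟨(s i).symm l, L, (List.isChain_cons.1 hc).2, by omega, ?_⟩
      intro e he
      obtain ⟨j, hj, hje⟩ := hall e he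
      rcases j with _ | j
      · rw [List.take_zero, List.foldl_nil] at hje
        exact absurd hje (by simp)
      · refine ⟨j, by omega, ?_⟩
        rw [List.take_succ_cons, List.foldl_cons] at hje
        exact hje

theorem afz (ptz : PTZStmt) : AFZStmt := by
  intro ι _ _ D T G Z v w hZ hb i J hJ hJne hJe
  rcases ptz (Pt ι) D T G.s G.gir Z v w hZ hb with h0 | ⟨p, L, hc, hl, hall⟩
  · subst h0
    simp only [Finset.filter_empty, Finset.image_empty, Finset.subset_empty] at hJ
    exact absurd hJ hJne
  · have hx : ∀ x ∈ J, ∃ j ≤ L.length, (L.take j).foldl (ot G.s) (Sum.inl p) = Sum.inl x := by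
      intro x hx
      obtain ⟨e, he, rfl⟩ := Finset.mem_image.1 (hJ hx)
      exact hall e (Finset.mem_filter.1 he).1
    choose! j hj1 hj2 using hx
    have hinj : Set.InjOn j J := by
      intro x hx y hy hxy
      have h1 := hj2 x hx
      have h2 := hj2 y hy
      rw [hxy, h2] at h1
      exact (Sum.inl_injective h1).symm
    have hsum : ∑ k ∈ J.image j, ptv ((L.take k).foldl (ot G.s) (Sum.inl p)) = ∑ x ∈ J, x := by
      rw [Finset.sum_image hinj]
      refine Finset.sum_congr rfl (fun x hx => ?_)
      rw [hj2 x hx]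
      rfl
    rw [← hsum]
    refine G.afi p L hc (hl.trans hZ) (J.image j) ?_ ?_ ?_
    · rw [Ne, Finset.image_eq_empty]
      exact hJne
    · intro k hk
      obtain ⟨x, hx, rfl⟩ := Finset.mem_image.1 hk
      exact hj1 x hx
    · rw [Finset.card_image_of_injOn hinj]
      exact hJe

end Pool.Agent.RHO.H97d
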